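import Mathlib

/-!
Disproof of the two-level deletion-shadow question (MP_26672a_co).

Words of length `n` over the alphabet `[r] = {1, ..., r}` are functions `Fin n → Fin r`; the symbol
`x` of `[r]` is coded by the element of `Fin r` with value `x - 1`.
-/

namespace Pool.Agent.Results.MP_26672a_co.TwoLevelFails

/-- `cnt x w` is the number of positions of the word `w` that carry the symbol `x`
(symbols are numbered `1, ..., r`; the element `a : Fin r` is the symbol `a + 1`). -/
def cnt {r n : ℕ} (x : ℕ) (w : Fin n → Fin r) : ℕ :=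
  (Finset.univ.filter fun i => (w i : ℕ) + 1 = x).card

/-- The deletion shadow of a family of words of length `n + 1`: all words of length `n` which are
obtained from a word of the family by deleting one letter (the one in position `i`). -/
def delShadow {r n : ℕ} (F : Finset (Fin (n + 1) → Fin r)) : Finset (Fin n → Fin r) :=
  Finset.univ.filter fun u => ∃ w ∈ F, ∃ i : Fin (n + 1), (fun j => w (i.succAbove j)) = u

/-- A family of words of length `n + 1` has minimal deletion shadow given its size. -/
def HasMinimalShadow {r n : ℕ} (F : Finset (Fin (n + 1) → Fin r)) : Prop :=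
  ∀ G : Finset (Fin (n + 1) → Fin r), G.card = F.card → (delShadow F).card ≤ (delShadow G).card

/-- The two-level family `F_{s,k,l}`, as a family of words of length `n` over `[r]`: the words all
of whose symbols are at most `s`, and with either `c_s ≤ k`, or `c_s = k + 1` and `c_{s-1} ≤ l`. -/
def twoLevel (r n s k l : ℕ) : Finset (Fin n → Fin r) :=
  Finset.univ.filter fun w => (∀ i, (w i : ℕ) + 1 ≤ s) ∧
    (cnt s w ≤ k ∨ (cnt s w = k + 1 ∧ cnt (s - 1) w ≤ l))

/-- letterwise relabelling of words -/
def relabel {a b : ℕ} (n : ℕ) (e : Fin a ↪ Fin b) : (Fin n → Fin a) ↪ (Fin n → Fin b) where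
  toFun w := fun i => e (w i)
  inj' := by
    intro w w' h
    funext i
    exact e.injective (congrFun h i)

lemma delShadow_map {a b n : ℕ} (e : Fin a ↪ Fin b) (F : Finset (Fin (n + 1) → Fin a)) :
    delShadow (F.map (relabel (n + 1) e)) = (delShadow F).map (relabel n e) := by
  ext u
  simp only [delShadow, Finset.mem_filter, Finset.mem_univ, true_and, Finset.mem_map]
  constructor
  · rintro ⟨w, ⟨w', hw', rfl⟩, i, rfl⟩
    exact ⟨fun j => w' (i.succAbove j), ⟨w', hw', i, rfl⟩, rfl⟩
  · rintro ⟨u', ⟨w', hw', i, rfl⟩, rfl⟩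
    exact ⟨relabel (n + 1) e w', ⟨w', hw', rfl⟩, i, rfl⟩

lemma cnt_relabel {r n x : ℕ} (h : 3 ≤ r) (w : Fin n → Fin 3) :
    cnt x (relabel n (Fin.castLEEmb h) w) = cnt x w := by
  unfold cnt relabel
  simp

lemma twoLevel_eq_map {r n k l : ℕ} (h : 3 ≤ r) :
    twoLevel r n 3 k l = (twoLevel 3 n 3 k l).map (relabel n (Fin.castLEEmb h)) := by
  ext w
  simp only [Finset.mem_map]
  constructor
  · intro hw
    have hw' := hw
    simp only [twoLevel, Finset.mem_filter, Finset.mem_univ, true_and] at hw'
    have hlt : ∀ i, (w i : ℕ) < 3 := fun i => by have := hw'.1 i; omega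
    have hEq : relabel n (Fin.castLEEmb h) (fun i => ⟨(w i : ℕ), hlt i⟩) = w := by
      funext i
      apply Fin.ext
      simp [relabel]
    refine ⟨fun i => ⟨(w i : ℕ), hlt i⟩, ?_, hEq⟩
    simp only [twoLevel, Finset.mem_filter, Finset.mem_univ, true_and]
    refine ⟨fun i => hw'.1 i, ?_⟩
    have h2 := hw'.2
    rw [← hEq] at h2
    simpa only [cnt_relabel] using h2
  · rintro ⟨w', hw', rfl⟩
    simp only [twoLevel, Finset.mem_filter, Finset.mem_univ, true_and] at hw' ⊢
    refine ⟨fun i => ?_, ?_⟩
    · have := hw'.1 i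
      simpa [relabel] using this
    · simpa only [cnt_relabel] using hw'.2

/-- the competitor: words `x y z t` with `x, y ∈ {1, 2}` and `(z, t) ≠ (3, 3)` -/
def comp : Finset (Fin 4 → Fin 3) :=
  Finset.univ.filter fun w => w 0 ≠ 2 ∧ w 1 ≠ 2 ∧ ¬ (w 2 = 2 ∧ w 3 = 2)

lemma card_comp : comp.card = 32 := by decide +kernel

lemma card_shadow_comp : (delShadow comp).card = 16 := by decide +kernel

lemma card_family : (twoLevel 3 4 3 0 1).card = 32 := by decide +kernel

lemma card_shadow_family : (delShadow (n := 3) (twoLevel 3 4 3 0 1)).card = 17 := by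
  decide +kernel

/-- For every alphabet size `r ≥ 3` the admissible two-level family `F_{3,0,1}` of words of length
`4` does not have minimal deletion shadow given its size. -/
theorem result : ∀ r : ℕ, 3 ≤ r → ¬ HasMinimalShadow (n := 3) (twoLevel r 4 3 0 1) := by
  intro r hr hmin
  have h1 := hmin (comp.map (relabel 4 (Fin.castLEEmb hr)))
    (by rw [Finset.card_map, card_comp, twoLevel_eq_map hr, Finset.card_map, card_family])
  rw [delShadow_map, Finset.card_map, card_shadow_comp, twoLevel_eq_map hr, delShadow_map,
    Finset.card_map, card_shadow_family] at h1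
  omega

end Pool.Agent.Results.MP_26672a_co.TwoLevelFails
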